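import Pool.Agent.K3h10.MO.PD
import Pool.Agent.K3h84.PC.MB

/-!
# The moments of Montgomery's function near the origin (helper10)
-/

set_option autoImplicit false

open MeasureTheory Set Filter Topology

namespace Pool.Agent.K3h10.MO

open Pool.Agent.K3h84.PC
open Pool.Agent.Y749.Rig (Fr ZZ mm nT nT_pos mm_nonneg one_lt_log Fr_nonneg Fr_cont Fr_even tr
  tr_cont tr_nonneg tr_supp tr_int tr_eq tr_even near0 fl fl_tr_nonneg)

lemma Fr_PD {T : ℝ} (hT : 10 ≤ T) : PD (Fr T) := by
  have hn := nT_pos hT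
  have hL := one_lt_log (show 3 ≤ T by linarith)
  have hLp : 0 < Real.log T := by linarith
  refine ⟨(ZZ T) × (ZZ T), inferInstance,
    fun i => mm (i.1 : ℂ) * mm (i.2 : ℂ) *
      wk ((i.1 : ℂ).im * (Real.log T / Real.log T) - (i.2 : ℂ).im * (Real.log T / Real.log T)) / nT T,
    fun i => Real.log T *
      ((i.1 : ℂ).im * (Real.log T / Real.log T) - (i.2 : ℂ).im * (Real.log T / Real.log T)),
    fun i => ?_, fun a => ?_⟩
  · exact div_nonneg (mul_nonneg (mul_nonneg (mm_nonneg _) (mm_nonneg _)) (wk_pos _).le) hn.le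
  · rw [← G_log, G_eq hT hLp]
    unfold Q
    rw [Fintype.sum_prod_type, Finset.sum_div, ← Finset.sum_coe_sort (ZZ T)]
    refine Finset.sum_congr rfl fun s _ => ?_
    rw [Finset.sum_div, ← Finset.sum_coe_sort (ZZ T)]
    refine Finset.sum_congr rfl fun s' _ => ?_
    simp only
    rw [mul_assoc a]
    ring

lemma Fr_le0 {T : ℝ} (hT : 10 ≤ T) (a : ℝ) : Fr T a ≤ Fr T 0 := by
  have hL := one_lt_log (show 3 ≤ T by linarith)
  rw [← G_log, ← G_log]
  exact G_le_zero hT (by linarith) a

lemma pow_sub_le {E F S : ℝ} (hE : 0 ≤ E) (hEF : E ≤ F) (hFS : F ≤ S) (p : ℕ) :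
    F ^ (p + 1) ≤ E ^ (p + 1) + (p + 1) * S ^ p * (F - E) := by
  induction p with
  | zero => simp
  | succ p ih =>
    have hF : 0 ≤ F := hE.trans hEF
    have hS : 0 ≤ S := hF.trans hFS
    have h1 : F ^ (p + 1) ≤ S ^ (p + 1) := pow_le_pow_left₀ hF hFS _
    have h2 : F ^ (p + 1 + 1) = F ^ (p + 1) * (F - E) + E * F ^ (p + 1) := by ring
    have h3 : E * F ^ (p + 1) ≤ E * (E ^ (p + 1) + (p + 1) * S ^ p * (F - E)) :=
      mul_le_mul_of_nonneg_left ih hE
    have h4 : F ^ (p + 1) * (F - E) ≤ S ^ (p + 1) * (F - E) :=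
      mul_le_mul_of_nonneg_right h1 (by linarith)
    have h5 : E * ((p + 1) * S ^ p * (F - E)) ≤ S * ((p + 1) * S ^ p * (F - E)) := by
      refine mul_le_mul_of_nonneg_right (hEF.trans hFS) ?_
      have : 0 ≤ F - E := by linarith
      positivity
    push_cast
    calc F ^ (p + 1 + 1) = F ^ (p + 1) * (F - E) + E * F ^ (p + 1) := h2
      _ ≤ S ^ (p + 1) * (F - E) + (E * E ^ (p + 1) + S * ((p + 1) * S ^ p * (F - E))) := by
        have h6 : E * (E ^ (p + 1) + (p + 1) * S ^ p * (F - E)) =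
          E * E ^ (p + 1) + E * ((p + 1) * S ^ p * (F - E)) := by ring
        linarith
      _ = _ := by ring

/-- the integral of the exponential on a symmetric interval -/
lemma exp_sym {L δ : ℝ} (hL : 0 < L) (hδ : 0 < δ) :
    ∫ a in (-δ)..δ, Real.exp (-(2 * L * |a|)) = (1 - Real.exp (-(2 * L * δ))) / L := by
  have hc : Continuous fun a : ℝ => Real.exp (-(2 * L * |a|)) := by fun_prop
  rw [← intervalIntegral.integral_add_adjacent_intervals (b := 0) (hc.intervalIntegrable _ _)
    (hc.intervalIntegrable _ _)]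
  have h1 : ∫ a in (0 : ℝ)..δ, Real.exp (-(2 * L * |a|)) = (1 - Real.exp (-(2 * L * δ))) / (2 * L) := by
    have h := exp_half (δ := δ) hL 0
    rw [zero_add] at h
    rw [← h]
    refine intervalIntegral.integral_congr fun a ha => ?_
    rw [uIcc_of_le hδ.le] at ha
    show Real.exp (-(2 * L * |a|)) = Real.exp (-(2 * L * (a - 0)))
    rw [abs_of_nonneg ha.1, sub_zero]
  have h2 : ∫ a in (-δ)..(0 : ℝ), Real.exp (-(2 * L * |a|)) = (1 - Real.exp (-(2 * L * δ))) / (2 * L) := by
    rw [← h1]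
    have h := intervalIntegral.integral_comp_neg (a := (0 : ℝ)) (b := δ)
      (f := fun a => Real.exp (-(2 * L * |a|)))
    rw [neg_zero] at h
    rw [← h]
    refine intervalIntegral.integral_congr fun a _ => ?_
    simp only [abs_neg]
  rw [h1, h2]
  field_simp
  ring

/-- the moment near the origin, upper bound -/
lemma near_up {T η δ : ℝ} (hT : 10 ≤ T) (hη : 0 < η) (hη1 : η ≤ 1) (hδ : 0 < δ) (p : ℕ)
    (h0 : Fr T 0 ≤ (1 + η) * Real.log T) (h1 : (1 - η) * Real.log T ≤ Fr T 0)
    (hm : ∫ α in (-δ)..δ, Fr T α ≤ 1 + η) (he : Real.exp (-(2 * Real.log T * δ)) ≤ η) :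
    ∫ α in (-δ)..δ, Fr T α ^ (p + 1) ≤
      Real.log T ^ p * (1 / (p + 1) + 3 * (p + 1) * 2 ^ p * η) := by
  have hL := one_lt_log (show 3 ≤ T by linarith)
  have hLp : 0 < Real.log T := by linarith
  set L := Real.log T with hLdef
  have hc := Fr_cont T
  set E : ℝ → ℝ := fun a => (1 - η) * L * Real.exp (-(2 * L * |a|)) with hE
  have hEc : Continuous E := by rw [hE]; fun_prop
  have hη0 : 0 ≤ 1 - η := by linarith
  have hE0 : ∀ a, 0 ≤ E a := fun a => by rw [hE]; positivity
  have hEF : ∀ a, E a ≤ Fr T a := by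
    intro a
    have h := harn hT 0 a
    rw [sub_zero] at h
    refine le_trans ?_ h
    rw [hE]
    simp only
    rw [mul_comm]
    exact mul_le_mul_of_nonneg_left h1 (Real.exp_pos _).le
  have hFS : ∀ a, Fr T a ≤ (1 + η) * L := fun a =>
    (Fr_le0 hT a).trans h0
  have hpt : ∀ a, Fr T a ^ (p + 1) ≤ E a ^ (p + 1) + (p + 1) * ((1 + η) * L) ^ p * (Fr T a - E a) :=
    fun a => pow_sub_le (hE0 a) (hEF a) (hFS a) p
  have i1 : ∫ α in (-δ)..δ, Fr T α ^ (p + 1) ≤
      ∫ α in (-δ)..δ, (E α ^ (p + 1) + (p + 1) * ((1 + η) * L) ^ p * (Fr T α - E α)) := by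
    refine intervalIntegral.integral_mono_on (by linarith)
      (Continuous.intervalIntegrable (by fun_prop) _ _)
      (Continuous.intervalIntegrable (by fun_prop) _ _) fun a _ => hpt a
  rw [intervalIntegral.integral_add (Continuous.intervalIntegrable (by fun_prop) _ _)
    (Continuous.intervalIntegrable (by fun_prop) _ _), intervalIntegral.integral_const_mul,
    intervalIntegral.integral_sub (Continuous.intervalIntegrable (by fun_prop) _ _)
    (Continuous.intervalIntegrable (by fun_prop) _ _)] at i1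
  have i2 : ∫ α in (-δ)..δ, E α ^ (p + 1) ≤ L ^ p * (1 / (p + 1)) := by
    have e1 : ∀ a, E a ^ (p + 1) = ((1 - η) * L) ^ (p + 1) *
        Real.exp (-(2 * ((p + 1) * L) * |a|)) := by
      intro a
      rw [hE]
      simp only
      rw [mul_pow, ← Real.exp_nat_mul]
      congr 2
      push_cast
      ring
    simp_rw [e1]
    have hp1 : (0 : ℝ) < p + 1 := by positivity
    rw [intervalIntegral.integral_const_mul, exp_sym (by positivity) hδ]
    have h3 : ((1 - η) * L) ^ (p + 1) ≤ L ^ (p + 1) :=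
      pow_le_pow_left₀ (by positivity) (mul_le_of_le_one_left hLp.le (by linarith)) _
    have h4 : (1 - Real.exp (-(2 * ((p + 1) * L) * δ))) / ((p + 1) * L) ≤ 1 / ((p + 1) * L) := by
      apply div_le_div_of_nonneg_right _ (by positivity)
      have := Real.exp_pos (-(2 * ((p + 1) * L) * δ))
      linarith
    calc ((1 - η) * L) ^ (p + 1) * ((1 - Real.exp (-(2 * ((p + 1) * L) * δ))) / ((p + 1) * L)) ≤
        ((1 - η) * L) ^ (p + 1) * (1 / ((p + 1) * L)) :=
          mul_le_mul_of_nonneg_left h4 (by positivity)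
      _ ≤ L ^ (p + 1) * (1 / ((p + 1) * L)) := mul_le_mul_of_nonneg_right h3 (by positivity)
      _ = _ := by
        rw [pow_succ]
        field_simp
  have i3 : (1 - η) * (1 - η) ≤ ∫ α in (-δ)..δ, E α := by
    rw [hE]
    rw [intervalIntegral.integral_const_mul, exp_sym hLp hδ]
    have : (1 - η) * L * ((1 - Real.exp (-(2 * L * δ))) / L) =
        (1 - η) * (1 - Real.exp (-(2 * L * δ))) := by field_simp
    rw [this]
    exact mul_le_mul_of_nonneg_left (by linarith) hη0
  have i4 : (∫ α in (-δ)..δ, Fr T α) - ∫ α in (-δ)..δ, E α ≤ 3 * η := by nlinarith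
  have i5 : ((1 + η) * L) ^ p ≤ 2 ^ p * L ^ p := by
    rw [← mul_pow]
    exact pow_le_pow_left₀ (by positivity) (mul_le_mul_of_nonneg_right (by linarith) hLp.le) _
  have i6 : (p + 1) * ((1 + η) * L) ^ p * ((∫ α in (-δ)..δ, Fr T α) - ∫ α in (-δ)..δ, E α) ≤
      (p + 1) * (2 ^ p * L ^ p) * (3 * η) := by
    have h5 : (p + 1) * ((1 + η) * L) ^ p * ((∫ α in (-δ)..δ, Fr T α) - ∫ α in (-δ)..δ, E α) ≤
        (p + 1) * ((1 + η) * L) ^ p * (3 * η) :=
      mul_le_mul_of_nonneg_left i4 (by positivity)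
    refine h5.trans ?_
    refine mul_le_mul_of_nonneg_right ?_ (by positivity)
    exact mul_le_mul_of_nonneg_left i5 (by positivity)
  calc ∫ α in (-δ)..δ, Fr T α ^ (p + 1) ≤ _ := i1
    _ ≤ L ^ p * (1 / (p + 1)) + (p + 1) * (2 ^ p * L ^ p) * (3 * η) := add_le_add i2 i6
    _ = _ := by ring

/-- the tent -/
lemma tr_one (a : ℝ) : tr 1 a = max 0 (1 - |a|) := by
  unfold tr
  rw [div_one, div_one]

lemma tr_one_le (a : ℝ) : tr 1 a ≤ 1 := by
  rw [tr_one]
  exact max_le zero_le_one (by linarith [abs_nonneg a])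

/-- the cosine transform of the tent is nonnegative -/
lemma tr_cos (t : ℝ) : 0 ≤ ∫ a, tr 1 a * Real.cos (a * t) := by
  have h := fl_tr_nonneg one_pos (t / (2 * Real.pi))
  unfold fl at h
  have hpi := Real.pi_pos
  have e : ∀ a : ℝ, 2 * Real.pi * a * (t / (2 * Real.pi)) = a * t := fun a => by field_simp
  simp_rw [e] at h
  exact h

/-- the moments with the tent at the origin -/
lemma tent_up {T η δ C : ℝ} (hT : 10 ≤ T) (hη : 0 < η) (hη1 : η ≤ 1) (hδ : 0 < δ) (hδ1 : δ ≤ 1)
    (p : ℕ) (hp : 1 ≤ p)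
    (h0 : Fr T 0 ≤ (1 + η) * Real.log T) (h1 : (1 - η) * Real.log T ≤ Fr T 0)
    (hm : ∫ α in (-δ)..δ, Fr T α ≤ 1 + η) (he : Real.exp (-(2 * Real.log T * δ)) ≤ η)
    (hs : ∀ θ : ℝ, δ ≤ |θ| → |θ| ≤ 1 - δ → Fr T θ ≤ η * Real.log T)
    (hC : ∫ α in (-1 : ℝ)..1, Fr T α ≤ C) :
    ∫ α, tr 1 α * Fr T α ^ (p + 1) ≤
      Real.log T ^ p * (1 / (p + 1) + 3 * (p + 1) * 2 ^ p * η + C * (η + 2 ^ p * δ)) := by
  have hL := one_lt_log (show 3 ≤ T by linarith)
  have hLp : 0 < Real.log T := by linarith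
  have hn := near_up hT hη hη1 hδ p h0 h1 hm he
  set L := Real.log T with hLdef
  have hc := Fr_cont T
  have hF0 := Fr_nonneg hT
  have hFS : ∀ a, Fr T a ≤ (1 + η) * L := fun a =>
    (Fr_le0 hT a).trans h0
  set κ : ℝ := η + 2 ^ p * δ with hκ
  have hκ0 : 0 ≤ κ := by rw [hκ]; positivity
  have hpt : ∀ a, tr 1 a * Fr T a ^ (p + 1) ≤
      (Icc (-δ) δ).indicator (fun a => Fr T a ^ (p + 1)) a +
      (Icc (-1 : ℝ) 1).indicator (fun a => κ * L ^ p * Fr T a) a := by
    intro a
    have ht0 := tr_nonneg one_pos a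
    have ht1 := tr_one_le a
    have hFp : 0 ≤ Fr T a ^ (p + 1) := pow_nonneg (hF0 a) _
    rcases le_or_gt |a| δ with h | h
    · rw [indicator_of_mem (show a ∈ Icc (-δ) δ from abs_le.1 h),
        indicator_of_mem (show a ∈ Icc (-1 : ℝ) 1 from abs_le.1 (h.trans hδ1))]
      have := mul_le_of_le_one_left hFp ht1
      have h2 : 0 ≤ κ * L ^ p * Fr T a := mul_nonneg (by positivity) (hF0 a)
      linarith
    · rw [indicator_of_notMem (show a ∉ Icc (-δ) δ from fun h' => absurd (abs_le.2 h') (not_le.2 h)),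
        zero_add]
      rcases le_or_gt 1 |a| with h2 | h2
      · rw [tr_supp one_pos a h2, zero_mul]
        refine indicator_nonneg (fun a _ => ?_) a
        exact mul_nonneg (by positivity) (hF0 a)
      · rw [indicator_of_mem (show a ∈ Icc (-1 : ℝ) 1 from abs_le.1 h2.le)]
        have hF := hF0 a
        rcases le_or_gt |a| (1 - δ) with h3 | h3
        · have h4 := hs a h.le h3
          have h5 : Fr T a ^ p ≤ (η * L) ^ p := pow_le_pow_left₀ hF h4 p
          have h6 : η ^ p ≤ η := by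
            calc η ^ p ≤ η ^ 1 := pow_le_pow_of_le_one hη.le hη1 hp
              _ = η := pow_one η
          have h7 : tr 1 a * Fr T a ^ (p + 1) ≤ Fr T a ^ (p + 1) := mul_le_of_le_one_left hFp ht1
          refine h7.trans ?_
          rw [pow_succ]
          refine mul_le_mul_of_nonneg_right ?_ hF
          refine h5.trans ?_
          rw [mul_pow]
          refine mul_le_mul_of_nonneg_right ?_ (by positivity)
          rw [hκ]
          have : (0 : ℝ) ≤ 2 ^ p * δ := by positivity
          linarith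
        · have h4 : tr 1 a ≤ δ := by
            rw [tr_one]
            exact max_le hδ.le (by linarith)
          have h5 : Fr T a ^ p ≤ (2 * L) ^ p := by
            refine pow_le_pow_left₀ hF ((hFS a).trans ?_) p
            exact mul_le_mul_of_nonneg_right (by linarith) hLp.le
          rw [pow_succ, ← mul_assoc]
          refine mul_le_mul_of_nonneg_right ?_ hF
          calc tr 1 a * Fr T a ^ p ≤ δ * (2 * L) ^ p :=
                mul_le_mul h4 h5 (pow_nonneg hF _) hδ.le
            _ = 2 ^ p * δ * L ^ p := by rw [mul_pow]; ring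
            _ ≤ κ * L ^ p := by
                refine mul_le_mul_of_nonneg_right ?_ (by positivity)
                rw [hκ]
                linarith
  have hi1 : Integrable ((Icc (-δ) δ).indicator (fun a => Fr T a ^ (p + 1))) := by
    rw [integrable_indicator_iff measurableSet_Icc]
    exact (hc.pow _).continuousOn.integrableOn_compact isCompact_Icc
  have hi2 : Integrable ((Icc (-1 : ℝ) 1).indicator (fun a => κ * L ^ p * Fr T a)) := by
    rw [integrable_indicator_iff measurableSet_Icc]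
    exact (continuous_const.mul hc).continuousOn.integrableOn_compact isCompact_Icc
  have hi3 : Integrable fun a => tr 1 a * Fr T a ^ (p + 1) := by
    refine (tr_int one_pos).mul_bdd (c := ((1 + η) * L) ^ (p + 1))
      (Continuous.aestronglyMeasurable (by fun_prop)) (ae_of_all _ fun a => ?_)
    rw [Real.norm_eq_abs, abs_of_nonneg (pow_nonneg (hF0 a) _)]
    exact pow_le_pow_left₀ (hF0 a) (hFS a) _
  have h2 : ∫ a, tr 1 a * Fr T a ^ (p + 1) ≤
      ∫ a, ((Icc (-δ) δ).indicator (fun a => Fr T a ^ (p + 1)) a +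
      (Icc (-1 : ℝ) 1).indicator (fun a => κ * L ^ p * Fr T a) a) :=
    integral_mono hi3 (hi1.add hi2) hpt
  rw [integral_add hi1 hi2, integral_indicator measurableSet_Icc, integral_indicator measurableSet_Icc,
    integral_const_mul, integral_Icc_eq_integral_Ioc, integral_Icc_eq_integral_Ioc,
    ← intervalIntegral.integral_of_le (by linarith : -δ ≤ δ),
    ← intervalIntegral.integral_of_le (by norm_num : (-1 : ℝ) ≤ 1)] at h2
  have h3 : κ * L ^ p * ∫ α in (-1 : ℝ)..1, Fr T α ≤ κ * L ^ p * C :=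
    mul_le_mul_of_nonneg_left hC (by positivity)
  calc ∫ a, tr 1 a * Fr T a ^ (p + 1) ≤ _ := h2
    _ ≤ L ^ p * (1 / (p + 1) + 3 * (p + 1) * 2 ^ p * η) + κ * L ^ p * C := add_le_add hn h3
    _ = _ := by rw [hκ]; ring

/-- the lower bound at the origin -/
lemma tent_low {T η δ : ℝ} (hT : 10 ≤ T) (hη : 0 < η) (hη1 : η ≤ 1) (hδ : 0 < δ) (hδ1 : δ ≤ 1)
    (p : ℕ) (h1 : (1 - η) * Real.log T ≤ Fr T 0) (he : Real.exp (-(2 * Real.log T * δ)) ≤ η) :
    Real.log T ^ p * ((1 - δ) * (1 - η) ^ (p + 2) / (p + 1)) ≤ ∫ α, tr 1 α * Fr T α ^ (p + 1) := by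
  have hL := one_lt_log (show 3 ≤ T by linarith)
  have hLp : 0 < Real.log T := by linarith
  set L := Real.log T with hLdef
  have hc := Fr_cont T
  have hF0 := Fr_nonneg hT
  have hη0 : 0 ≤ 1 - η := by linarith
  have hp1 : (0 : ℝ) < p + 1 := by positivity
  set E : ℝ → ℝ := fun a => ((1 - η) * L) ^ (p + 1) * Real.exp (-(2 * ((p + 1) * L) * |a|)) with hE
  have hEc : Continuous E := by rw [hE]; fun_prop
  have hEF : ∀ a, E a ≤ Fr T a ^ (p + 1) := by
    intro a
    have h := harn hT 0 a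
    rw [sub_zero] at h
    have h2 : (1 - η) * L * Real.exp (-(2 * L * |a|)) ≤ Fr T a := by
      refine le_trans ?_ h
      rw [mul_comm]
      exact mul_le_mul_of_nonneg_left h1 (Real.exp_pos _).le
    have h3 := pow_le_pow_left₀ (by positivity) h2 (p + 1)
    refine le_trans (le_of_eq ?_) h3
    rw [hE]
    simp only
    rw [mul_pow ((1 - η) * L), ← Real.exp_nat_mul]
    congr 2
    push_cast
    ring
  have hpt : ∀ a, (Icc (-δ) δ).indicator (fun a => (1 - δ) * E a) a ≤ tr 1 a * Fr T a ^ (p + 1) := by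
    intro a
    by_cases h : a ∈ Icc (-δ) δ
    · rw [indicator_of_mem h]
      have h4 : 1 - δ ≤ tr 1 a := by
        rw [tr_one]
        refine le_max_of_le_right ?_
        have := abs_le.2 h
        linarith
      exact mul_le_mul h4 (hEF a) (by rw [hE]; positivity) (tr_nonneg one_pos a)
    · rw [indicator_of_notMem h]
      exact mul_nonneg (tr_nonneg one_pos a) (pow_nonneg (hF0 a) _)
  have hi1 : Integrable ((Icc (-δ) δ).indicator (fun a => (1 - δ) * E a)) := by
    rw [integrable_indicator_iff measurableSet_Icc]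
    exact (continuous_const.mul hEc).continuousOn.integrableOn_compact isCompact_Icc
  have hi3 : Integrable fun a => tr 1 a * Fr T a ^ (p + 1) := by
    refine (tr_int one_pos).mul_bdd (c := (Fr T 0) ^ (p + 1))
      (Continuous.aestronglyMeasurable (by fun_prop)) (ae_of_all _ fun a => ?_)
    rw [Real.norm_eq_abs, abs_of_nonneg (pow_nonneg (hF0 a) _)]
    exact pow_le_pow_left₀ (hF0 a) (Fr_le0 hT a) _
  have h2 := integral_mono hi1 hi3 hpt
  rw [integral_indicator measurableSet_Icc, integral_const_mul, integral_Icc_eq_integral_Ioc,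
    ← intervalIntegral.integral_of_le (by linarith : -δ ≤ δ), hE,
    intervalIntegral.integral_const_mul, exp_sym (by positivity) hδ] at h2
  refine le_trans ?_ h2
  have h5 : Real.exp (-(2 * ((p + 1) * L) * δ)) ≤ η := by
    refine le_trans (Real.exp_le_exp.2 ?_) he
    have h6 : (0 : ℝ) ≤ p := by positivity
    have h7 : 0 ≤ p * (2 * L * δ) := by positivity
    nlinarith
  have h6 : ((1 - η) * L) ^ (p + 1) * ((1 - η) / ((p + 1) * L)) ≤
      ((1 - η) * L) ^ (p + 1) * ((1 - Real.exp (-(2 * ((p + 1) * L) * δ))) / ((p + 1) * L)) := by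
    refine mul_le_mul_of_nonneg_left ?_ (by positivity)
    exact div_le_div_of_nonneg_right (by linarith) (by positivity)
  have h7 := mul_le_mul_of_nonneg_left h6 (show 0 ≤ 1 - δ by linarith)
  refine le_trans (le_of_eq ?_) h7
  rw [mul_pow, pow_succ L, pow_succ (1 - η) (p + 1)]
  field_simp

end Pool.Agent.K3h10.MO
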