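import Pool.Agent.K3h10.MO.Asy
import Pool.Agent.K3h84.PC.F0

/-!
# The moments of Montgomery's function in Fejér windows (helper10)
-/

set_option autoImplicit false

open MeasureTheory Set Filter Topology

namespace Pool.Agent.K3h10.MO

open Pool.Agent.K3h84.PC
open Pool.Agent.Y749.Rig (Fr ZZ mm nT nT_pos mm_nonneg one_lt_log Fr_nonneg Fr_cont Fr_even tr
  tr_cont tr_nonneg tr_supp tr_int tr_eq tr_even near0 fl fl_tr_nonneg)

theorem moments (RH : RiemannHypothesis) (p : ℕ) (hp : 2 ≤ p) {e : ℝ} (he : 0 < e) :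
    ∀ᶠ T in atTop, (∀ x, ∫ a, tr 1 (a - x) * Fr T a ^ p ≤ (1 / p + e) * Real.log T ^ (p - 1)) ∧
      (1 / p - e) * Real.log T ^ (p - 1) ≤ ∫ a, tr 1 a * Fr T a ^ p := by
  obtain ⟨q, rfl⟩ : ∃ q, p = q + 1 := ⟨p - 1, by omega⟩
  have hq : 1 ≤ q := by omega
  obtain ⟨C, hC, hM⟩ := M_bdd
  set K : ℝ := 3 * (q + 1) * 2 ^ q + C with hK
  have hK0 : 0 < K := by positivity
  obtain ⟨η, hη⟩ : ∃ η : ℝ, η = min 1 (min (e / (2 * K)) (e / (2 * (q + 2)))) := ⟨_, rfl⟩
  have hη0 : 0 < η := by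
    rw [hη]; exact lt_min one_pos (lt_min (by positivity) (by positivity))
  have hη1 : η ≤ 1 := by rw [hη]; exact min_le_left _ _
  have hη2 : η ≤ e / (2 * K) := by rw [hη]; exact (min_le_right _ _).trans (min_le_left _ _)
  have hη3 : η ≤ e / (2 * (q + 2)) := by rw [hη]; exact (min_le_right _ _).trans (min_le_right _ _)
  obtain ⟨δ0, hδ0, hnear⟩ := near0 RH hη0
  obtain ⟨δ, hδ⟩ : ∃ δ : ℝ, δ = min (min δ0 1) (min (e / 2) (e / (2 * (C * 2 ^ q)))) := ⟨_, rfl⟩
  have hδp : 0 < δ := by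
    rw [hδ]; exact lt_min (lt_min hδ0 one_pos) (lt_min (by positivity) (by positivity))
  have hδ1 : δ ≤ δ0 := by rw [hδ]; exact (min_le_left _ _).trans (min_le_left _ _)
  have hδ2 : δ ≤ 1 := by rw [hδ]; exact (min_le_left _ _).trans (min_le_right _ _)
  have hδ3 : δ ≤ e / 2 := by rw [hδ]; exact (min_le_right _ _).trans (min_le_left _ _)
  have hδ4 : δ ≤ e / (2 * (C * 2 ^ q)) := by rw [hδ]; exact (min_le_right _ _).trans (min_le_right _ _)
  filter_upwards [hnear δ hδp hδ1, F0_le RH hη0, F0_ge hη0, exp_small hδp hη0,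
    F_small RH hδp hη0, hM, eventually_ge_atTop 10] with T h1 h2 h3 h4 h5 h6 hT
  have hL := one_lt_log (show 3 ≤ T by linarith)
  have hLp : 0 < Real.log T := by linarith
  have hC1 : ∫ α in (-1 : ℝ)..1, Fr T α ≤ C := by
    have h := h6 1 0 zero_le_one le_rfl
    unfold M at h
    rwa [zero_sub, zero_add] at h
  have hup := tent_up hT hη0 hη1 hδp hδ2 q hq h2 h3 h1 h4 h5 hC1
  have hlow := tent_low hT hη0 hη1 hδp hδ2 q h3 h4
  have hLq : 0 < Real.log T ^ q := by positivity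
  rw [Nat.add_sub_cancel]
  push_cast
  constructor
  · intro x
    refine (PD.shift ((Fr_PD hT).pow (q + 1)) (tr_int one_pos) (tr_even 1) tr_cos x).trans ?_
    refine hup.trans ?_
    rw [mul_comm (Real.log T ^ q)]
    refine mul_le_mul_of_nonneg_right ?_ hLq.le
    have a1 : K * η ≤ e / 2 := by
      have := mul_le_mul_of_nonneg_left hη2 hK0.le
      have e1 : K * (e / (2 * K)) = e / 2 := by field_simp
      linarith
    have a2 : C * 2 ^ q * δ ≤ e / 2 := by
      have hc2 : 0 < C * 2 ^ q := by positivity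
      have := mul_le_mul_of_nonneg_left hδ4 hc2.le
      have e1 : C * 2 ^ q * (e / (2 * (C * 2 ^ q))) = e / 2 := by field_simp
      linarith
    have a3 : 3 * (q + 1) * 2 ^ q * η + C * (η + 2 ^ q * δ) = K * η + C * 2 ^ q * δ := by
      rw [hK]; ring
    linarith
  · refine le_trans ?_ hlow
    rw [mul_comm (Real.log T ^ q)]
    refine mul_le_mul_of_nonneg_right ?_ hLq.le
    have hq1 : (0 : ℝ) < q + 1 := by positivity
    rw [le_div_iff₀ hq1, sub_mul, div_mul_cancel₀ _ hq1.ne']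
    have b1 : 1 + ((q + 2 : ℕ) : ℝ) * (-η) ≤ (1 + -η) ^ (q + 2) :=
      one_add_mul_le_pow (by linarith) _
    rw [← sub_eq_add_neg] at b1
    push_cast at b1
    have b2 : (q + 2) * η ≤ e / 2 := by
      have hq2 : (0 : ℝ) < q + 2 := by positivity
      have := mul_le_mul_of_nonneg_left hη3 hq2.le
      have e1 : ((q : ℝ) + 2) * (e / (2 * (q + 2))) = e / 2 := by field_simp
      linarith
    have b3 : (1 - η) ^ (q + 2) ≤ 1 := pow_le_one₀ (by linarith) (by linarith)
    have b4 : (0 : ℝ) ≤ (1 - η) ^ (q + 2) := pow_nonneg (by linarith) _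
    have b5 : e ≤ e * (q + 1) := by nlinarith [show (0 : ℝ) ≤ q from Nat.cast_nonneg q]
    nlinarith

end Pool.Agent.K3h10.MO
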