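import Mathlib

/-!
# Cosine sums with nonnegative coefficients (helper10)
-/

set_option autoImplicit false

open MeasureTheory

namespace Pool.Agent.K3h10.MO

/-- cosine sums with nonnegative coefficients -/
def PD (f : ℝ → ℝ) : Prop :=
  ∃ (ι : Type) (_ : Fintype ι) (c t : ι → ℝ), (∀ i, 0 ≤ c i) ∧
    ∀ a, f a = ∑ i, c i * Real.cos (a * t i)

lemma PD.one : PD (fun _ => 1) :=
  ⟨Unit, inferInstance, fun _ => 1, fun _ => 0, fun _ => zero_le_one, fun a => by simp⟩

lemma PD.mul {f g : ℝ → ℝ} (hf : PD f) (hg : PD g) : PD (fun a => f a * g a) := by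
  obtain ⟨ι, _, c, t, hc, hf⟩ := hf
  obtain ⟨κ, _, d, u, hd, hg⟩ := hg
  refine ⟨(ι × κ) × Bool, inferInstance, fun i => c i.1.1 * d i.1.2 / 2,
    fun i => if i.2 then t i.1.1 + u i.1.2 else t i.1.1 - u i.1.2, fun i => ?_, fun a => ?_⟩
  · have := hc i.1.1
    have := hd i.1.2
    positivity
  · simp only
    rw [hf, hg, Finset.sum_mul_sum, Fintype.sum_prod_type, Fintype.sum_prod_type]
    refine Finset.sum_congr rfl fun i _ => Finset.sum_congr rfl fun j _ => ?_
    rw [Fintype.sum_bool]
    simp only [if_true, Bool.false_eq_true, if_false]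
    rw [mul_add, mul_sub, Real.cos_add, Real.cos_sub]
    ring

lemma PD.pow {f : ℝ → ℝ} (hf : PD f) (p : ℕ) : PD (fun a => f a ^ p) := by
  induction p with
  | zero => simpa using PD.one
  | succ p ih => simpa [pow_succ] using ih.mul hf

lemma cos_shift {ψ : ℝ → ℝ} (hi : Integrable ψ) (he : ∀ a, ψ (-a) = ψ a) (t x : ℝ) :
    ∫ a, ψ (a - x) * Real.cos (a * t) = Real.cos (x * t) * ∫ a, ψ a * Real.cos (a * t) := by
  have hc : Integrable fun a => ψ a * Real.cos (a * t) := by
    refine hi.mul_bdd (c := 1) (Continuous.aestronglyMeasurable (by fun_prop)) (ae_of_all _ fun a => ?_)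
    rw [Real.norm_eq_abs]; exact Real.abs_cos_le_one _
  have hs : Integrable fun a => ψ a * Real.sin (a * t) := by
    refine hi.mul_bdd (c := 1) (Continuous.aestronglyMeasurable (by fun_prop)) (ae_of_all _ fun a => ?_)
    rw [Real.norm_eq_abs]; exact Real.abs_sin_le_one _
  have h0 : ∫ a, ψ a * Real.sin (a * t) = 0 := by
    have h := integral_neg_eq_self (fun a => ψ a * Real.sin (a * t)) volume
    have h1 : (fun a => ψ (-a) * Real.sin (-a * t)) = fun a => -(ψ a * Real.sin (a * t)) := by
      funext a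
      rw [he, neg_mul, Real.sin_neg, mul_neg]
    rw [h1, integral_neg] at h
    linarith
  rw [← integral_add_right_eq_self (fun a => ψ (a - x) * Real.cos (a * t)) x]
  have h1 : ∀ a, ψ (a + x - x) * Real.cos ((a + x) * t) =
      Real.cos (x * t) * (ψ a * Real.cos (a * t)) - Real.sin (x * t) * (ψ a * Real.sin (a * t)) := by
    intro a
    rw [add_sub_cancel_right, add_mul, Real.cos_add]
    ring
  simp_rw [h1]
  rw [integral_sub (hc.const_mul _) (hs.const_mul _), integral_const_mul, integral_const_mul, h0]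
  ring

/-- the integral against a translate of a positive definite function is at most that at `0` -/
theorem PD.shift {f ψ : ℝ → ℝ} (hf : PD f) (hi : Integrable ψ) (he : ∀ a, ψ (-a) = ψ a)
    (h0 : ∀ t, 0 ≤ ∫ a, ψ a * Real.cos (a * t)) (x : ℝ) :
    ∫ a, ψ (a - x) * f a ≤ ∫ a, ψ a * f a := by
  obtain ⟨ι, _, c, t, hc, hf⟩ := hf
  have key : ∀ y, ∫ a, ψ (a - y) * f a =
      ∑ i, c i * (Real.cos (y * t i) * ∫ a, ψ a * Real.cos (a * t i)) := by
    intro y
    have h1 : ∀ a, ψ (a - y) * f a = ∑ i, c i * (ψ (a - y) * Real.cos (a * t i)) := by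
      intro a
      rw [hf, Finset.mul_sum]
      exact Finset.sum_congr rfl fun i _ => by ring
    simp_rw [h1]
    rw [integral_finsetSum]
    · refine Finset.sum_congr rfl fun i _ => ?_
      rw [integral_const_mul, cos_shift hi he]
    · intro i _
      refine Integrable.const_mul ?_ _
      refine (hi.comp_sub_right y).mul_bdd (c := 1) (Continuous.aestronglyMeasurable (by fun_prop))
        (ae_of_all _ fun a => ?_)
      rw [Real.norm_eq_abs]; exact Real.abs_cos_le_one _
  have h2 := key 0
  simp only [sub_zero, zero_mul, Real.cos_zero, one_mul] at h2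
  rw [key x, h2]
  refine Finset.sum_le_sum fun i _ => mul_le_mul_of_nonneg_left ?_ (hc i)
  exact mul_le_of_le_one_left (h0 _) (Real.cos_le_one _)

end Pool.Agent.K3h10.MO
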